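import Pool.Agent.H93.CP.Targets

/-!
# cpt_modules PTU: infinite paths have exactly one point
-/

set_option autoImplicit false

open Set Filter Topology Pool.Agent.H93.CP

namespace Pool.Agent.H61.CPT

theorem pf_PTU (hNES : T_NES) (hPWD : T_PWD) : T_PTU := by
  intro G X _ _ _ _ H C b hb
  obtain ⟨-, -, hO, hne, -, hsub, hcl⟩ := hNES G X H C
  obtain ⟨ha, hpre, hc, hd, -⟩ := hPWD G C.gr
  have hw := (hc b).1 hb
  choose w hwm hwl using hw
  have hleg : ∀ n, C.gr.Leg C.gr.root (w n) := fun n => b.2.leg (w n) (hwm n)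
  have hp : ∀ n m, n ≤ m → w n <+: w m := fun n m h =>
    hpre b (w n) (w m) (hwm n) (hwm m) (by rw [hwl, hwl]; exact h)
  have hW : ∀ n m, n ≤ m → C.W (w m) ⊆ C.W (w n) := fun n m h =>
    hsub (w n) (w m) (hleg m) (hp n m h)
  have hstep : ∀ n, closure (C.W (w (n + 1))) ⊆ C.W (w n) ∧
      ∀ u ∈ C.W (w (n + 1)), ∀ v ∈ C.W (w (n + 1)), dist u v ≤ (1 / 2 : ℝ) ^ n := by
    intro n
    obtain ⟨s, hs⟩ := hp n (n + 1) (Nat.le_succ n)
    have hl : s.length = 1 := by
      have := congrArg List.length hs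
      rw [List.length_append, hwl, hwl] at this
      omega
    obtain ⟨e, rfl⟩ := List.length_eq_one_iff.1 hl
    have h1 := hcl (w n) e (by rw [hs]; exact hleg (n + 1))
    rw [hs] at h1
    refine ⟨h1.1, fun u hu v hv => (h1.2 u hu v hv).trans ?_⟩
    have h2 : n ≤ (C.gr.fin C.gr.root (w n)).2 := by
      have h3 := hd (w n) (hleg n)
      rw [hwl] at h3
      exact h3
    exact pow_le_pow_of_le_one (by norm_num) (by norm_num) h2
  choose p hpW using fun n => hne (w n)
  have hq : CauchySeq (fun n => p (n + 1)) := by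
    apply cauchySeq_of_le_geometric (1 / 2 : ℝ) 1 (by norm_num)
    intro n
    rw [one_mul]
    exact (hstep n).2 _ (hpW (n + 1)) _ (hW (n + 1) (n + 1 + 1) (Nat.le_succ _) (hpW (n + 1 + 1)))
  obtain ⟨y, hy⟩ := cauchySeq_tendsto_of_complete hq
  have hyc : ∀ n, y ∈ closure (C.W (w (n + 1))) := by
    intro n
    apply mem_closure_of_tendsto hy
    filter_upwards [eventually_ge_atTop n] with m hm
    exact hW (n + 1) (m + 1) (by omega) (hpW (m + 1))
  have hyW : ∀ n, y ∈ C.W (w n) := fun n => (hstep n).1 (hyc n)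
  have hal : ∀ v, C.gr.Mem v b → v = w v.length := fun v hv =>
    ha b v (w v.length) hv (hwm _) (hwl _).symm
  refine ⟨y, fun v hv => ?_, fun z hz => ?_⟩
  · rw [hal v hv]
    exact hyW _
  · have hzW : ∀ n, z ∈ C.W (w n) := fun n => hz (w n) (hwm n)
    have hd0 : ∀ n, dist z y ≤ (1 / 2 : ℝ) ^ n := fun n =>
      (hstep n).2 z (hzW (n + 1)) y (hyW (n + 1))
    have ht : Tendsto (fun n : ℕ => (1 / 2 : ℝ) ^ n) atTop (𝓝 0) :=
      tendsto_pow_atTop_nhds_zero_of_lt_one (by norm_num) (by norm_num)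
    have h0 : dist z y ≤ 0 := ge_of_tendsto' ht hd0
    exact dist_le_zero.1 h0

end Pool.Agent.H61.CPT
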